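import Pool.Agent.Y150.KN.Stm
import Pool.Agent.H667R2.FG.Basic

/-!
# Averaging over the unitary group
-/

set_option autoImplicit false

namespace Pool.Agent.Y535.KN

open Matrix Pool.Agent.Y150.KN MeasureTheory Pool.Agent.H667R2.FG

section Ext

variable {R : Type} [CommRing R] {n r k : ℕ}

/-- The tensor product of matrices on the factors. -/
def ext (A : Fin k → Matrix (Fin r → Fin n) (Fin r → Fin n) R) :
    Matrix (Fin k × Fin r → Fin n) (Fin k × Fin r → Fin n) R :=
  Matrix.of fun J I => ∏ t, A t (fun s => J (t, s)) (fun s => I (t, s))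

lemma ext_apply (A : Fin k → Matrix (Fin r → Fin n) (Fin r → Fin n) R)
    (J I : Fin k × Fin r → Fin n) :
    ext A J I = ∏ t, A t (fun s => J (t, s)) (fun s => I (t, s)) := rfl

lemma ext_mul (A B : Fin k → Matrix (Fin r → Fin n) (Fin r → Fin n) R) :
    ext A * ext B = ext fun t => A t * B t := by
  ext J I
  simp only [Matrix.mul_apply, ext_apply]
  rw [Finset.prod_univ_sum]
  simp only [Fintype.piFinset_univ, ← Finset.prod_mul_distrib]
  exact Fintype.sum_equiv (Equiv.curry _ _ _) _ _ (fun K => rfl)

lemma tp_eq_ext (M : Matrix (Fin n) (Fin n) R) :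
    tp (Fin k × Fin r) M = ext fun _ => tp (Fin r) M := by
  ext J I
  simp only [tp_apply, ext_apply]
  rw [Fintype.prod_prod_type]

end Ext

section Phi

variable {n : ℕ} {α : Type} [Fintype α] [DecidableEq α]

omit [DecidableEq α] in
lemma cont_tp (J I : α → Fin n) : Continuous fun u : UU n => tp α (u : Mat n) J I := by
  simp only [tp_apply]
  exact continuous_finsetProd _ fun a _ => continuous_subtype_val.matrix_elem _ _

omit [DecidableEq α] in
lemma cont_tp_star (J I : α → Fin n) :
    Continuous fun u : UU n => tp α (star (u : Mat n)) J I := by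
  simp only [tp_apply]
  exact continuous_finsetProd _ fun a _ => (continuous_subtype_val.star).matrix_elem _ _

/-- The conjugate by a unitary matrix. -/
noncomputable def cj (y : Matrix (α → Fin n) (α → Fin n) ℂ) (u : UU n) :
    Matrix (α → Fin n) (α → Fin n) ℂ :=
  tp α (u : Mat n) * y * tp α (star (u : Mat n))

lemma cont_cj (y : Matrix (α → Fin n) (α → Fin n) ℂ) (J I : α → Fin n) :
    Continuous fun u : UU n => cj y u J I := by
  simp only [cj, Matrix.mul_apply]
  exact continuous_finsetSum _ fun K _ =>
    (continuous_finsetSum _ fun L _ => (cont_tp _ _).mul continuous_const).mul (cont_tp_star _ _)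

lemma int_cont (f : UU n → ℂ) (hf : Continuous f) : Integrable f (haarU n) :=
  hf.integrable_of_hasCompactSupport (HasCompactSupport.of_compactSpace f)

/-- The average. -/
noncomputable def Phi (y : Matrix (α → Fin n) (α → Fin n) ℂ) :
    Matrix (α → Fin n) (α → Fin n) ℂ :=
  Matrix.of fun J I => ∫ u : UU n, cj y u J I ∂(haarU n)

lemma Phi_mul (A B y : Matrix (α → Fin n) (α → Fin n) ℂ) (J I : α → Fin n) :
    (A * Phi y * B) J I = ∫ u : UU n, (A * cj y u * B) J I ∂(haarU n) := by
  simp only [Matrix.mul_apply, Phi, Matrix.of_apply]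
  rw [integral_finsetSum]
  · refine Finset.sum_congr rfl fun K _ => ?_
    rw [integral_mul_const, integral_finsetSum]
    · congr 1
      refine Finset.sum_congr rfl fun L _ => ?_
      rw [integral_const_mul]
    · intro L _
      exact (int_cont _ (cont_cj y _ _)).const_mul _
  · intro K _
    exact (integrable_finsetSum _ fun L _ => (int_cont _ (cont_cj y _ _)).const_mul _).mul_const _

lemma Phi_conj (y : Matrix (α → Fin n) (α → Fin n) ℂ) (v : UU n) :
    tp α (v : Mat n) * Phi y * tp α (star (v : Mat n)) = Phi y := by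
  ext J I
  rw [Phi_mul]
  have h1 : ∀ u : UU n, tp α (v : Mat n) * cj y u * tp α (star (v : Mat n)) = cj y (v * u) := by
    intro u
    have h2 : star ((v * u : UU n) : Mat n) = star (u : Mat n) * star (v : Mat n) := by
      rw [← star_mul]
      rfl
    have h3 : ((v * u : UU n) : Mat n) = (v : Mat n) * (u : Mat n) := rfl
    rw [cj, cj, h2, h3, tp_mul, tp_mul]
    simp only [Matrix.mul_assoc]
  simp only [h1]
  exact integral_mul_left_eq_self (fun u => cj y u J I) v

lemma Phi_comm (y : Matrix (α → Fin n) (α → Fin n) ℂ) (v : Mat n)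
    (hv : v ∈ Matrix.unitaryGroup (Fin n) ℂ) : tp α v * Phi y = Phi y * tp α v := by
  have h := Phi_conj y ⟨v, hv⟩
  have h1 : tp α (star v) * tp α v = 1 := tp_mul_cancel (Matrix.mem_unitaryGroup_iff'.1 hv)
  have h2 : tp α v * Phi y * tp α (star v) * tp α v = Phi y * tp α v := by
    rw [show tp α v * Phi y * tp α (star v) = Phi y from h]
  rwa [Matrix.mul_assoc, h1, Matrix.mul_one] at h2

lemma trace_Phi (y : Matrix (α → Fin n) (α → Fin n) ℂ) (π : Equiv.Perm α) :
    (Phi y * pm ℂ n π).trace = (y * pm ℂ n π).trace := by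
  have h1 : (Phi y * pm ℂ n π).trace =
      ∫ u : UU n, ∑ J, ((1 : Matrix (α → Fin n) (α → Fin n) ℂ) * cj y u * pm ℂ n π) J J
        ∂(haarU n) := by
    rw [integral_finsetSum]
    · simp only [Matrix.trace, Matrix.diag_apply]
      refine Finset.sum_congr rfl fun J _ => ?_
      rw [← Phi_mul, Matrix.one_mul]
    · intro J _
      refine int_cont _ ?_
      simp only [Matrix.one_mul, Matrix.mul_apply]
      exact continuous_finsetSum _ fun K _ => (cont_cj y _ _).mul continuous_const
  rw [h1]
  have h2 : ∀ u : UU n, ∑ J, ((1 : Matrix (α → Fin n) (α → Fin n) ℂ) * cj y u * pm ℂ n π) J J =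
      (y * pm ℂ n π).trace := by
    intro u
    have h3 : tp α (star (u : Mat n)) * tp α (u : Mat n) = 1 :=
      tp_mul_cancel (Matrix.mem_unitaryGroup_iff'.1 u.2)
    have h4 : ((1 : Matrix (α → Fin n) (α → Fin n) ℂ) * cj y u * pm ℂ n π).trace =
        (y * pm ℂ n π).trace := by
      have h5 : (1 : Matrix (α → Fin n) (α → Fin n) ℂ) * cj y u * pm ℂ n π =
          tp α (u : Mat n) * (y * pm ℂ n π * tp α (star (u : Mat n))) := by
        rw [Matrix.one_mul, cj]
        simp only [Matrix.mul_assoc]
        rw [tp_comm_pm]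
      rw [h5, Matrix.trace_mul_comm, Matrix.mul_assoc, h3, Matrix.mul_one]
    exact h4
  simp only [h2]
  rw [integral_const]
  simp

lemma Phi_zero (hf : S_fft) (y : Matrix (α → Fin n) (α → Fin n) ℂ)
    (hy : ∀ π : Equiv.Perm α, (y * pm ℂ n π).trace = 0) : Phi y = 0 := by
  have h1 := hf n α (Phi y) fun u hu => Phi_comm y u hu
  have h2 : ∀ x ∈ Submodule.span ℂ (Set.range fun π : Equiv.Perm α => pm ℂ n π),
      (Phi y * xᴴ).trace = 0 := by
    intro x hx
    induction hx using Submodule.span_induction with
    | mem x hx =>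
      obtain ⟨π, rfl⟩ := hx
      have h3 : (pm ℂ n π)ᴴ = pm ℂ n π⁻¹ := by
        ext J I
        simp only [Matrix.conjTranspose_apply, pm_apply]
        have : I = J ∘ π ↔ J = I ∘ ⇑π⁻¹ := by
          constructor
          · rintro rfl
            ext a
            simp
          · rintro rfl
            ext a
            simp
        simp only [this]
        split_ifs <;> simp
      rw [h3, trace_Phi, hy]
    | zero => simp
    | add x z _ _ hx hz => rw [Matrix.conjTranspose_add, mul_add, Matrix.trace_add, hx, hz, add_zero]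
    | smul c x _ hx =>
      rw [Matrix.conjTranspose_smul, Matrix.mul_smul, Matrix.trace_smul, hx, smul_zero]
  have h3 := h2 _ h1
  open scoped ComplexOrder in
  exact Matrix.trace_mul_conjTranspose_self_eq_zero_iff.1 h3

end Phi

lemma avg_prod (hf : S_fft) {n r : ℕ} {τ : Type}
    (Z : τ → Matrix (Fin r → Fin n) (Fin r → Fin n) ℂ) (hZ : Null Z) {k : ℕ} (hk : 0 < k)
    (x : Fin k → τ × (Fin r → Fin n) × (Fin r → Fin n)) :
    ∫ u : UU n, ∏ i, (tp (Fin r) (u : Mat n) * Z (x i).1 * tp (Fin r) (star (u : Mat n)))
      (x i).2.1 (x i).2.2 ∂(haarU n) = 0 := by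
  have h1 : Phi (ext fun t => Z (x t).1) = 0 := by
    refine Phi_zero hf _ fun π => ?_
    have h2 := hZ k hk (fun t => (x t).1) π
    simp only [Matrix.trace, Matrix.diag_apply, mul_pm, ext_apply]
    exact h2
  have h2 := congrFun (congrFun h1 (fun p => (x p.1).2.1 p.2)) (fun p => (x p.1).2.2 p.2)
  have h3 : ∀ u : UU n, cj (ext fun t => Z (x t).1) u (fun p => (x p.1).2.1 p.2)
      (fun p => (x p.1).2.2 p.2) =
      ∏ i, (tp (Fin r) (u : Mat n) * Z (x i).1 * tp (Fin r) (star (u : Mat n)))
      (x i).2.1 (x i).2.2 := by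
    intro u
    rw [cj, tp_eq_ext, tp_eq_ext, ext_mul, ext_mul, ext_apply]
  simp only [Phi, Matrix.of_apply, Matrix.zero_apply] at h2
  simp only [h3] at h2
  exact h2

theorem avg (hf : S_fft) : S_avg := by
  intro n r τ Z hZ P hP
  by_contra hcon
  push Not at hcon
  have h1 : ∫ u : UU n, MvPolynomial.eval
        (fun x => (tp (Fin r) (u : Mat n) * Z x.1 * tp (Fin r) (star (u : Mat n))) x.2.1 x.2.2) P
          ∂(haarU n) = 1 := by
    have : ∀ u : UU n, MvPolynomial.eval
        (fun x => (tp (Fin r) (u : Mat n) * Z x.1 * tp (Fin r) (star (u : Mat n))) x.2.1 x.2.2) P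
        = 1 := fun u => hcon u u.2
    simp only [this]
    simp
  have h2 : ∫ u : UU n, MvPolynomial.eval
        (fun x => (tp (Fin r) (u : Mat n) * Z x.1 * tp (Fin r) (star (u : Mat n))) x.2.1 x.2.2) P
          ∂(haarU n) = 0 := by
    simp only [MvPolynomial.eval_eq]
    rw [integral_finsetSum]
    · refine Finset.sum_eq_zero fun d hd => ?_
      rw [integral_const_mul]
      have h3 : ∫ u : UU n, ∏ i ∈ d.support, (tp (Fin r) (u : Mat n) * Z i.1 *
          tp (Fin r) (star (u : Mat n))) i.2.1 i.2.2 ^ d i ∂(haarU n) = 0 := by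
        have h4 : ∀ u : UU n, ∏ i ∈ d.support, (tp (Fin r) (u : Mat n) * Z i.1 *
          tp (Fin r) (star (u : Mat n))) i.2.1 i.2.2 ^ d i =
          ∏ i : Fin (Finsupp.toMultiset d).toList.length, (tp (Fin r) (u : Mat n) *
            Z ((Finsupp.toMultiset d).toList.get i).1 *
            tp (Fin r) (star (u : Mat n))) ((Finsupp.toMultiset d).toList.get i).2.1
              ((Finsupp.toMultiset d).toList.get i).2.2 := by
          intro u
          classical
          have h5 := Finset.prod_multiset_map_count (Finsupp.toMultiset d)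
            (fun i => (tp (Fin r) (u : Mat n) * Z i.1 *
              tp (Fin r) (star (u : Mat n))) i.2.1 i.2.2)
          rw [Finsupp.toFinset_toMultiset] at h5
          simp only [Finsupp.count_toMultiset] at h5
          rw [← h5]
          conv_lhs => rw [← Multiset.coe_toList (Finsupp.toMultiset d)]
          rw [Multiset.map_coe, Multiset.prod_coe]
          exact (Fin.prod_univ_fun_getElem _ _).symm
        simp only [h4]
        refine avg_prod hf Z hZ ?_ (fun i => (Finsupp.toMultiset d).toList.get i)
        rw [Multiset.length_toList, Finsupp.card_toMultiset]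
        rcases Nat.eq_zero_or_pos (d.sum fun _ => id) with h0 | h0
        · exfalso
          have hd0 : d = 0 := by
            ext i
            by_contra hi
            have h6 : i ∈ d.support := Finsupp.mem_support_iff.2 hi
            have h7 := Finset.sum_eq_zero_iff.1 h0 i h6
            exact hi h7
          rw [hd0] at hd
          exact (MvPolynomial.mem_support_iff.1 hd) hP
        · exact h0
      rw [h3, mul_zero]
    · intro d _
      refine int_cont _ (continuous_const.mul ?_)
      exact continuous_finsetProd _ fun i _ => (cont_cj (Z i.1) i.2.1 i.2.2).pow _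
  rw [h1] at h2
  exact one_ne_zero h2

end Pool.Agent.Y535.KN
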