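import Pool.Agent.Y150.KN.Stm

/-!
# Schur's commutant theorem for the permutations of the factors of a tensor power
-/

set_option autoImplicit false

namespace Pool.Agent.Y535.KN

open Matrix Pool.Agent.Y150.KN

/-- The representation of the permutations of the factors on the tensor power. -/
def rho (n : ℕ) (α : Type) : Representation ℂ (Equiv.Perm α) ((α → Fin n) → ℂ) where
  toFun π := LinearMap.funLeft ℂ ℂ (fun J : α → Fin n => J ∘ π)
  map_one' := by
    ext v J
    simp [LinearMap.funLeft]
  map_mul' π σ := by
    ext v J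
    simp [LinearMap.funLeft, Function.comp_assoc]

lemma rho_apply (n : ℕ) (α : Type) (π : Equiv.Perm α) (v : (α → Fin n) → ℂ) (J : α → Fin n) :
    rho n α π v J = v (J ∘ π) := rfl

/-- An endomorphism of the module as a linear map. -/
noncomputable def lin (n : ℕ) (α : Type)
    (T' : Module.End (MonoidAlgebra ℂ (Equiv.Perm α)) (rho n α).asModule) :
    ((α → Fin n) → ℂ) →ₗ[ℂ] ((α → Fin n) → ℂ) where
  toFun := fun x => (rho n α).asModuleEquiv (T' ((rho n α).asModuleEquiv.symm x))
  map_add' := fun x y => by simp
  map_smul' := fun c x => by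
    rw [(rho n α).asModuleEquiv_symm_map_smul c x, T'.map_smul,
      Representation.asModuleEquiv_map_smul]
    simp

lemma lin_apply (n : ℕ) (α : Type)
    (T' : Module.End (MonoidAlgebra ℂ (Equiv.Perm α)) (rho n α).asModule)
    (x : (α → Fin n) → ℂ) :
    lin n α T' x = (rho n α).asModuleEquiv (T' ((rho n α).asModuleEquiv.symm x)) := rfl

lemma lin_rho (n : ℕ) (α : Type)
    (T' : Module.End (MonoidAlgebra ℂ (Equiv.Perm α)) (rho n α).asModule)
    (π : Equiv.Perm α) (x : (α → Fin n) → ℂ) :
    lin n α T' (rho n α π x) = rho n α π (lin n α T' x) := by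
  rw [lin_apply, lin_apply, Representation.asModuleEquiv_symm_map_rho, T'.map_smul,
      Representation.asModuleEquiv_map_smul]
  simp

lemma lin_symm (n : ℕ) (α : Type) [Fintype α] [DecidableEq α]
    (T' : Module.End (MonoidAlgebra ℂ (Equiv.Perm α)) (rho n α).asModule)
    (π : Equiv.Perm α) (J I : α → Fin n) :
    LinearMap.toMatrix' (lin n α T') (J ∘ π) (I ∘ π) = LinearMap.toMatrix' (lin n α T') J I := by
  rw [LinearMap.toMatrix'_apply, LinearMap.toMatrix'_apply]
  have h1 := congrFun (lin_rho n α T' π (Pi.single (I ∘ π) 1)) J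
  rw [rho_apply] at h1
  have h2 : rho n α π (Pi.single (I ∘ π) 1) = (Pi.single I 1 : (α → Fin n) → ℂ) := by
    ext K
    rw [rho_apply, Pi.single_apply, Pi.single_apply]
    have : K ∘ π = I ∘ π ↔ K = I := by
      constructor
      · intro h
        ext a
        have := congrFun h (π.symm a)
        simpa using congrArg Fin.val this
      · rintro rfl
        rfl
    simp only [this]
  rw [h2] at h1
  exact h1.symm

theorem comm : S_comm := by
  intro n α _ _ q hq
  have hE : ∀ (T' : Module.End (MonoidAlgebra ℂ (Equiv.Perm α)) (rho n α).asModule)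
      (v : (α → Fin n) → ℂ), q.mulVec (lin n α T' v) = lin n α T' (q.mulVec v) := by
    intro T' v
    have h := hq (LinearMap.toMatrix' (lin n α T')) (lin_symm n α T')
    have h1 := congrArg (fun A => A.mulVec v) h
    simp only [← Matrix.mulVec_mulVec, LinearMap.toMatrix'_mulVec] at h1
    exact h1
  let f : Module.End (Module.End (MonoidAlgebra ℂ (Equiv.Perm α)) (rho n α).asModule)
      (rho n α).asModule :=
    { toFun := fun v => (rho n α).asModuleEquiv.symm (q.mulVec ((rho n α).asModuleEquiv v))
      map_add' := fun x y => by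
        rw [map_add, Matrix.mulVec_add, map_add]
      map_smul' := fun T' v => by
        have h := hE T' ((rho n α).asModuleEquiv v)
        rw [lin_apply, lin_apply, LinearEquiv.symm_apply_apply] at h
        rw [RingHom.id_apply, Module.End.smul_def, Module.End.smul_def, h,
          LinearEquiv.symm_apply_apply] }
  classical
  obtain ⟨r, hr⟩ := jacobson_density f
    (Finset.univ.image fun I : α → Fin n =>
      (rho n α).asModuleEquiv.symm (Pi.single I 1 : (α → Fin n) → ℂ))
  have hq2 : q = ∑ π : Equiv.Perm α, r.coeff π • pm ℂ n π⁻¹ := by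
    ext J I
    have h1 : (rho n α).asModuleEquiv.symm (q.mulVec ((rho n α).asModuleEquiv
        ((rho n α).asModuleEquiv.symm (Pi.single I 1 : (α → Fin n) → ℂ)))) =
        r • ((rho n α).asModuleEquiv.symm (Pi.single I 1 : (α → Fin n) → ℂ)) :=
      hr _ (Finset.mem_image.2 ⟨I, Finset.mem_univ _, rfl⟩)
    have h2 := congrArg (rho n α).asModuleEquiv h1
    rw [LinearEquiv.apply_symm_apply, LinearEquiv.apply_symm_apply,
      Representation.asModuleEquiv_map_smul, LinearEquiv.apply_symm_apply,
      Matrix.mulVec_single_one] at h2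
    have h3 : q J I = ((rho n α).asAlgebraHom r (Pi.single I 1 : (α → Fin n) → ℂ)) J :=
      congrFun h2 J
    rw [h3, Representation.asAlgebraHom_def, MonoidAlgebra.lift_apply,
      Finsupp.sum_fintype _ _ (by simp)]
    simp only [LinearMap.sum_apply, LinearMap.smul_apply, Finset.sum_apply, Pi.smul_apply,
      Matrix.sum_apply, Matrix.smul_apply, rho_apply, pm_apply, Pi.single_apply]
    refine Finset.sum_congr rfl fun π _ => ?_
    have : J ∘ π = I ↔ J = I ∘ ⇑π⁻¹ := by
      constructor
      · rintro rfl
        ext a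
        simp
      · rintro rfl
        ext a
        simp
    simp only [this]
  rw [hq2]
  exact Submodule.sum_mem _ fun π _ => Submodule.smul_mem _ _ (Submodule.subset_span ⟨π⁻¹, rfl⟩)

end Pool.Agent.Y535.KN
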