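import Pool.Agent.Y150.KN.Stm

/-!
# The first fundamental theorem for the unitary group
-/

set_option autoImplicit false

namespace Pool.Agent.Y535.KN

open Matrix Pool.Agent.Y150.KN

theorem fft (hd : S_dens) (hs : S_sym) (hc : S_comm) : S_fft := by
  intro n α _ _ q hq
  have hall : ∀ g : Matrix (Fin n) (Fin n) ℂ, tp α g * q = q * tp α g := by
    intro g
    ext J I
    let F : MvPolynomial (Fin n × Fin n) ℂ :=
      ∑ K : α → Fin n, MvPolynomial.C (q K I) * ∏ a, MvPolynomial.X (J a, K a) -
        ∑ K : α → Fin n, MvPolynomial.C (q J K) * ∏ a, MvPolynomial.X (K a, I a)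
    have hF : ∀ u : Matrix (Fin n) (Fin n) ℂ, MvPolynomial.eval (fun p => u p.1 p.2) F =
        (tp α u * q) J I - (q * tp α u) J I := by
      intro u
      simp only [F, map_sub, map_sum, map_mul, map_prod, MvPolynomial.eval_C,
        MvPolynomial.eval_X, Matrix.mul_apply, tp_apply]
      congr 1
      refine Finset.sum_congr rfl fun K _ => ?_
      ring
    have hh : F.IsHomogeneous (Fintype.card α) := by
      refine MvPolynomial.IsHomogeneous.sub ?_ ?_
      · refine MvPolynomial.IsHomogeneous.sum _ _ _ fun K _ => ?_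
        have h1 : (∏ a, (MvPolynomial.X (J a, K a) : MvPolynomial (Fin n × Fin n) ℂ)).IsHomogeneous
            (∑ _a : α, 1) :=
          MvPolynomial.IsHomogeneous.prod _ _ _ fun a _ => MvPolynomial.isHomogeneous_X _ _
        simpa using (MvPolynomial.isHomogeneous_C _ (q K I)).mul h1
      · refine MvPolynomial.IsHomogeneous.sum _ _ _ fun K _ => ?_
        have h1 : (∏ a, (MvPolynomial.X (K a, I a) : MvPolynomial (Fin n × Fin n) ℂ)).IsHomogeneous
            (∑ _a : α, 1) :=
          MvPolynomial.IsHomogeneous.prod _ _ _ fun a _ => MvPolynomial.isHomogeneous_X _ _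
        simpa using (MvPolynomial.isHomogeneous_C _ (q J K)).mul h1
    have h0 : F = 0 := hd n _ F hh fun u hu => by
      rw [hF, hq u hu, sub_self]
    have h1 := hF g
    rw [h0, map_zero] at h1
    exact (sub_eq_zero.1 h1.symm)
  refine hc n α q fun T hT => ?_
  have h1 := hs n α T hT
  clear hT
  induction h1 using Submodule.span_induction with
  | mem x hx =>
    obtain ⟨g, rfl⟩ := hx
    exact (hall g).symm
  | zero => simp
  | add x y _ _ hx hy => rw [mul_add, add_mul, hx, hy]
  | smul c x _ hx => rw [Matrix.mul_smul, Matrix.smul_mul, hx]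

end Pool.Agent.Y535.KN
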