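import Pool.Agent.Y150.KN.Stm

/-!
# Symmetric tensors are combinations of tensor powers (polarisation)
-/

set_option autoImplicit false

namespace Pool.Agent.Y535.KN

open Matrix Pool.Agent.Y150.KN

variable {n : ℕ} {α : Type} [Fintype α] [DecidableEq α]

lemma sum_neg_one (f : α → α) :
    ∑ U : Finset α, (if ∀ a, f a ∉ U then ((-1 : ℂ)) ^ U.card else 0) =
      if Function.Bijective f then 1 else 0 := by
  have h1 : ∑ U : Finset α, (if ∀ a, f a ∉ U then ((-1 : ℂ)) ^ U.card else 0) =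
      ∑ U ∈ (Finset.univ.image f)ᶜ.powerset, ((-1 : ℂ)) ^ U.card := by
    rw [← Finset.sum_filter]
    refine Finset.sum_congr ?_ fun _ _ => rfl
    ext U
    simp only [Finset.mem_filter, Finset.mem_univ, true_and, Finset.mem_powerset]
    constructor
    · intro h x hx
      rw [Finset.mem_compl, Finset.mem_image]
      rintro ⟨a, -, rfl⟩
      exact h a hx
    · intro h a ha
      have := h ha
      rw [Finset.mem_compl, Finset.mem_image] at this
      exact this ⟨a, Finset.mem_univ _, rfl⟩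
  rw [h1]
  have h2 := Finset.sum_powerset_neg_one_pow_card (x := (Finset.univ.image f)ᶜ)
  have h3 : ∑ U ∈ (Finset.univ.image f)ᶜ.powerset, ((-1 : ℂ)) ^ U.card =
      ((∑ U ∈ (Finset.univ.image f)ᶜ.powerset, ((-1 : ℤ)) ^ U.card : ℤ) : ℂ) := by
    push_cast
    rfl
  rw [h3, h2]
  have h4 : (Finset.univ.image f)ᶜ = ∅ ↔ Function.Bijective f := by
    rw [← Finite.surjective_iff_bijective, Finset.compl_eq_empty_iff]
    constructor
    · intro h b
      have : b ∈ Finset.univ.image f := by rw [h]; exact Finset.mem_univ _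
      obtain ⟨a, -, ha⟩ := Finset.mem_image.1 this
      exact ⟨a, ha⟩
    · intro h
      ext b
      obtain ⟨a, ha⟩ := h b
      simp only [Finset.mem_univ, iff_true]
      exact Finset.mem_image.2 ⟨a, Finset.mem_univ _, ha⟩
  simp only [h4]
  push_cast
  rfl

/-- The polarisation identity. -/
lemma polar (M : α → Matrix (Fin n) (Fin n) ℂ) (J I : α → Fin n) :
    ∑ U : Finset α, (-1 : ℂ) ^ U.card * tp α (∑ a ∈ Uᶜ, M a) J I =
      ∑ π : Equiv.Perm α, ∏ b, M (π b) (J b) (I b) := by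
  have h1 : ∀ U : Finset α, tp α (∑ a ∈ Uᶜ, M a) J I =
      ∑ f : α → α, if ∀ a, f a ∉ U then ∏ b, M (f b) (J b) (I b) else 0 := by
    intro U
    rw [tp_apply]
    simp only [Matrix.sum_apply]
    rw [Finset.prod_univ_sum, ← Finset.sum_filter]
    refine Finset.sum_congr ?_ fun _ _ => rfl
    ext f
    simp
  simp only [h1, Finset.mul_sum]
  rw [Finset.sum_comm]
  have h2 : ∀ f : α → α, ∑ U : Finset α, (-1 : ℂ) ^ U.card *
      (if ∀ a, f a ∉ U then ∏ b, M (f b) (J b) (I b) else 0) =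
      if Function.Bijective f then ∏ b, M (f b) (J b) (I b) else 0 := by
    intro f
    have h3 := congrArg (fun x => x * ∏ b, M (f b) (J b) (I b)) (sum_neg_one f)
    simp only [Finset.sum_mul, ite_mul, zero_mul, one_mul] at h3
    rw [← h3]
    refine Finset.sum_congr rfl fun U _ => ?_
    split_ifs <;> simp
  simp only [h2]
  rw [← Finset.sum_filter]
  refine (Finset.sum_bij (fun (π : Equiv.Perm α) _ => (π : α → α)) ?_ ?_ ?_ ?_).symm
  · intro π _
    simp
  · intro π _ σ _ h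
    exact DFunLike.coe_injective h
  · intro f hf
    rw [Finset.mem_filter] at hf
    exact ⟨Equiv.ofBijective f hf.2, Finset.mem_univ _, rfl⟩
  · intro π _
    rfl

theorem sym : S_sym := by
  intro n α _ _ T hT
  have h1 : T = ∑ J₀ : α → Fin n, ∑ I₀ : α → Fin n, ∑ U : Finset α,
      ((Fintype.card (Equiv.Perm α) : ℂ)⁻¹ * T J₀ I₀ * (-1 : ℂ) ^ U.card) •
        tp α (∑ a ∈ Uᶜ, Matrix.single (J₀ a) (I₀ a) (1 : ℂ)) := by
    ext J I
    simp only [Matrix.sum_apply, Matrix.smul_apply, smul_eq_mul]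
    have h2 : ∀ J₀ I₀ : α → Fin n, ∑ U : Finset α,
        (Fintype.card (Equiv.Perm α) : ℂ)⁻¹ * T J₀ I₀ * (-1 : ℂ) ^ U.card *
          tp α (∑ a ∈ Uᶜ, Matrix.single (J₀ a) (I₀ a) (1 : ℂ)) J I =
        (Fintype.card (Equiv.Perm α) : ℂ)⁻¹ * T J₀ I₀ *
          ∑ π : Equiv.Perm α, if J = J₀ ∘ π ∧ I = I₀ ∘ π then 1 else 0 := by
      intro J₀ I₀
      simp only [mul_assoc ((Fintype.card (Equiv.Perm α) : ℂ)⁻¹ * T J₀ I₀), ← Finset.mul_sum]
      rw [polar (fun a => Matrix.single (J₀ a) (I₀ a) (1 : ℂ)) J I]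
      congr 1
      refine Finset.sum_congr rfl fun π _ => ?_
      simp only [Matrix.single_apply]
      by_cases h : J = J₀ ∘ π ∧ I = I₀ ∘ π
      · rw [if_pos h]
        refine Finset.prod_eq_one fun b _ => ?_
        rw [if_pos]
        rw [h.1, h.2]
        exact ⟨rfl, rfl⟩
      · rw [if_neg h]
        have h3 : ∃ b, ¬ (J₀ (π b) = J b ∧ I₀ (π b) = I b) := by
          by_contra h4
          push Not at h4
          exact h ⟨funext fun b => (h4 b).1.symm, funext fun b => (h4 b).2.symm⟩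
        obtain ⟨b, hb⟩ := h3
        exact Finset.prod_eq_zero (Finset.mem_univ b) (if_neg hb)
    simp only [h2, Finset.mul_sum]
    have h3 : ∀ J₀ I₀ : α → Fin n, ∀ π : Equiv.Perm α,
        (Fintype.card (Equiv.Perm α) : ℂ)⁻¹ * T J₀ I₀ *
          (if J = J₀ ∘ π ∧ I = I₀ ∘ π then 1 else 0) =
        if J₀ = J ∘ ⇑π⁻¹ then (if I₀ = I ∘ ⇑π⁻¹ then
          (Fintype.card (Equiv.Perm α) : ℂ)⁻¹ * T J I else 0) else 0 := by
      intro J₀ I₀ π
      have e : ∀ A B : α → Fin n, A = B ∘ π ↔ B = A ∘ ⇑π⁻¹ := by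
        intro A B
        constructor
        · rintro rfl
          ext a
          simp
        · rintro rfl
          ext a
          simp
      by_cases h4 : J₀ = J ∘ ⇑π⁻¹
      · by_cases h5 : I₀ = I ∘ ⇑π⁻¹
        · rw [if_pos ⟨(e J J₀).2 h4, (e I I₀).2 h5⟩, if_pos h4, if_pos h5, h4, h5, hT, mul_one]
        · rw [if_neg (fun h => h5 ((e I I₀).1 h.2)), if_pos h4, if_neg h5, mul_zero]
      · rw [if_neg (fun h => h4 ((e J J₀).1 h.1)), if_neg h4, mul_zero]
    simp only [h3]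
    have h4 : ∀ J₀ : α → Fin n, ∑ I₀ : α → Fin n, ∑ π : Equiv.Perm α,
        (if J₀ = J ∘ ⇑π⁻¹ then (if I₀ = I ∘ ⇑π⁻¹ then
          (Fintype.card (Equiv.Perm α) : ℂ)⁻¹ * T J I else 0) else 0) =
        ∑ π : Equiv.Perm α, if J₀ = J ∘ ⇑π⁻¹ then
          (Fintype.card (Equiv.Perm α) : ℂ)⁻¹ * T J I else 0 := by
      intro J₀
      rw [Finset.sum_comm]
      refine Finset.sum_congr rfl fun π _ => ?_
      split_ifs with h
      · rw [Finset.sum_ite_eq' Finset.univ (I ∘ ⇑π⁻¹)]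
        simp
      · simp
    simp only [h4]
    rw [Finset.sum_comm]
    have h5 : ∀ π : Equiv.Perm α, ∑ J₀ : α → Fin n, (if J₀ = J ∘ ⇑π⁻¹ then
          (Fintype.card (Equiv.Perm α) : ℂ)⁻¹ * T J I else 0) =
          (Fintype.card (Equiv.Perm α) : ℂ)⁻¹ * T J I := by
      intro π
      rw [Finset.sum_ite_eq' Finset.univ (J ∘ ⇑π⁻¹)]
      simp
    simp only [h5]
    rw [Finset.sum_const, Finset.card_univ, nsmul_eq_mul, ← mul_assoc,
      mul_inv_cancel₀ (by exact_mod_cast Fintype.card_ne_zero), one_mul]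
  rw [h1]
  refine Submodule.sum_mem _ fun J₀ _ => Submodule.sum_mem _ fun I₀ _ =>
    Submodule.sum_mem _ fun U _ => Submodule.smul_mem _ _ (Submodule.subset_span ⟨_, rfl⟩)

end Pool.Agent.Y535.KN
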